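import Mathlib

set_option autoImplicit false

namespace Pool.Agent.H29R3.UniqFact

/-- classes of finite graphs -/
abbrev Cls := (n : ℕ) → SimpleGraph (Fin n) → Prop

def Hered (A : Cls) : Prop :=
  ∀ (a b : ℕ) (G : SimpleGraph (Fin a)) (H : SimpleGraph (Fin b)) (f : H →g G),
    Function.Injective f → A a G → A b H

/-- the class extended to graphs on arbitrary types -/
def Ah (A : Cls) {V : Type} (G : SimpleGraph V) : Prop :=
  ∃ (r : ℕ) (K : SimpleGraph (Fin r)), A r K ∧ Nonempty (G ≃g K)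

def Pr (A B : Cls) (n : ℕ) (G : SimpleGraph (Fin n)) : Prop :=
  ∃ S : Set (Fin n), Ah A (G.induce S) ∧ Ah B (G.induce Sᶜ)

def Irr (Q : Cls) : Prop :=
  Hered Q ∧ Q 1 ⊥ ∧ ∀ A B : Cls, Hered A → Hered B → A 1 ⊥ → B 1 ⊥ →
    ¬ ∀ (n : ℕ) (G : SimpleGraph (Fin n)), (Q n G ↔ Pr A B n G)

def MPr {m : ℕ} (Ps : Fin m → Cls) {V : Type} (G : SimpleGraph V) : Prop :=
  ∃ c : V → Fin m, ∀ i : Fin m, Ah (Ps i) (G.induce {v | c v = i})

lemma Ah_mono {A : Cls} (hA : Hered A) {V W : Type} {G : SimpleGraph V} {H : SimpleGraph W}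
    (f : H →g G) (hf : Function.Injective f) (h : Ah A G) : Ah A H := by
  obtain ⟨r, K, hK, ⟨e⟩⟩ := h
  have hW : Finite W := Finite.of_injective (fun w => e (f w)) (fun a b hab => hf (e.injective hab))
  obtain ⟨b, ⟨g⟩⟩ := Finite.exists_equiv_fin W
  refine ⟨b, H.comap g.symm, ?_, ⟨?_⟩⟩
  · refine hA r b K _ ⟨fun x => e (f (g.symm x)), ?_⟩ ?_ hK
    · intro x y hxy
      exact e.map_rel_iff.2 (f.map_rel hxy)
    · intro x y hxy
      exact g.symm.injective (hf (e.injective hxy))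
  · refine ⟨g, ?_⟩
    intro a b
    simp [SimpleGraph.comap_adj]

lemma Ah_fin {A : Cls} (hA : Hered A) {n : ℕ} (G : SimpleGraph (Fin n)) : Ah A G ↔ A n G := by
  constructor
  · rintro ⟨r, K, hK, ⟨e⟩⟩
    exact hA r n K G e.toHom e.injective hK
  · intro h
    exact ⟨n, G, h, ⟨SimpleGraph.Iso.refl⟩⟩

lemma MPr_mono {m : ℕ} {Ps : Fin m → Cls} (hP : ∀ i, Hered (Ps i)) {V W : Type}
    {G : SimpleGraph V} {H : SimpleGraph W} (f : H →g G) (hf : Function.Injective f)
    (h : MPr Ps G) : MPr Ps H := by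
  obtain ⟨c, hc⟩ := h
  refine ⟨fun w => c (f w), fun i => ?_⟩
  refine Ah_mono (hP i) (G := G.induce {v | c v = i}) ⟨fun x => ⟨f x.1, x.2⟩, ?_⟩ ?_ (hc i)
  · intro a b hab
    exact f.map_rel hab
  · intro a b hab
    have : f a.1 = f b.1 := congrArg Subtype.val hab
    exact Subtype.ext (hf this)

/-- If `A` is the product of `Ps`, then so it is on all types. -/
lemma Ah_iff_MPr {m : ℕ} {Ps : Fin m → Cls} (hP : ∀ i, Hered (Ps i)) {A : Cls}
    (hA : ∀ (n : ℕ) (G : SimpleGraph (Fin n)), A n G ↔ MPr Ps G) {V : Type} [Finite V]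
    (G : SimpleGraph V) : Ah A G ↔ MPr Ps G := by
  constructor
  · rintro ⟨r, K, hK, ⟨e⟩⟩
    exact MPr_mono hP e.toHom e.injective ((hA r K).1 hK)
  · intro h
    obtain ⟨b, ⟨g⟩⟩ := Finite.exists_equiv_fin V
    have e : G ≃g (G.comap g.symm) := ⟨g, by intro a b; simp [SimpleGraph.comap_adj]⟩
    exact ⟨b, G.comap g.symm, (hA _ _).2 (MPr_mono hP e.symm.toHom e.symm.injective h), ⟨e⟩⟩

lemma MPr_append {m k : ℕ} {Ps : Fin m → Cls} {Qs : Fin k → Cls} (hP : ∀ i, Hered (Ps i))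
    (hQ : ∀ i, Hered (Qs i)) {V : Type} (G : SimpleGraph V) :
    MPr (Fin.append Ps Qs) G ↔ ∃ S : Set V, MPr Ps (G.induce S) ∧ MPr Qs (G.induce Sᶜ) := by
  classical
  constructor
  · rintro ⟨c, hc⟩
    refine ⟨{v | (c v : ℕ) < m}, ⟨fun v => ⟨(c v.1 : ℕ), v.2⟩, fun i => ?_⟩,
      ⟨fun v => ⟨(c v.1 : ℕ) - m, ?_⟩, fun j => ?_⟩⟩
    · have h := hc (Fin.castAdd k i)
      rw [Fin.append_left] at h
      have key : ∀ v : {v | (c v : ℕ) < m}, (⟨(c v.1 : ℕ), v.2⟩ : Fin m) = i →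
          c v.1 = Fin.castAdd k i := by
        intro v hv
        rw [← hv]
        exact Fin.ext rfl
      refine Ah_mono (hP i) ⟨fun x => ⟨x.1.1, key x.1 x.2⟩, ?_⟩ ?_ h
      · intro a b hab
        exact hab
      · intro a b hab
        have h1 := congrArg (fun z => z.1) hab
        exact Subtype.ext (Subtype.ext h1)
    · have h2 : ¬ (c v.1 : ℕ) < m := v.2
      have h3 := (c v.1).2
      omega
    · have h := hc (Fin.natAdd m j)
      rw [Fin.append_right] at h
      have key : ∀ v : ({v | (c v : ℕ) < m}ᶜ : Set V), ∀ hh : (c v.1 : ℕ) - m < k,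
          (⟨(c v.1 : ℕ) - m, hh⟩ : Fin k) = j → c v.1 = Fin.natAdd m j := by
        intro v hh hv
        have h2 : ¬ (c v.1 : ℕ) < m := v.2
        have h3 := congrArg Fin.val hv
        apply Fin.ext
        simp only [Fin.val_natAdd] at h3 ⊢
        omega
      refine Ah_mono (hQ j) ⟨fun x => ⟨x.1.1, key x.1 _ x.2⟩, ?_⟩ ?_ h
      · intro a b hab
        exact hab
      · intro a b hab
        have h1 := congrArg (fun z => z.1) hab
        exact Subtype.ext (Subtype.ext h1)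
  · rintro ⟨S, ⟨c1, h1⟩, ⟨c2, h2⟩⟩
    refine ⟨fun v => if h : v ∈ S then Fin.castAdd k (c1 ⟨v, h⟩) else Fin.natAdd m (c2 ⟨v, h⟩), ?_⟩
    intro i
    refine Fin.addCases (fun i => ?_) (fun j => ?_) i
    · rw [Fin.append_left]
      have key : ∀ v : V, (if h : v ∈ S then Fin.castAdd k (c1 ⟨v, h⟩) else
          Fin.natAdd m (c2 ⟨v, h⟩)) = Fin.castAdd k i → ∃ h : v ∈ S, c1 ⟨v, h⟩ = i := by
        intro v hv
        by_cases h : v ∈ S
        · rw [dif_pos h] at hv
          exact ⟨h, Fin.castAdd_injective _ _ hv⟩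
        · rw [dif_neg h] at hv
          have := congrArg Fin.val hv
          simp only [Fin.val_natAdd, Fin.val_castAdd] at this
          have := i.2
          omega
      refine Ah_mono (hP i) ⟨fun x => ⟨⟨x.1, (key x.1 x.2).1⟩, (key x.1 x.2).2⟩, ?_⟩ ?_ (h1 i)
      · intro a b hab
        exact hab
      · intro a b hab
        have := congrArg (fun z => z.1.1) hab
        exact Subtype.ext this
    · rw [Fin.append_right]
      have key : ∀ v : V, (if h : v ∈ S then Fin.castAdd k (c1 ⟨v, h⟩) else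
          Fin.natAdd m (c2 ⟨v, h⟩)) = Fin.natAdd m j → ∃ h : v ∈ Sᶜ, c2 ⟨v, h⟩ = j := by
        intro v hv
        by_cases h : v ∈ S
        · rw [dif_pos h] at hv
          have := congrArg Fin.val hv
          simp only [Fin.val_natAdd, Fin.val_castAdd] at this
          have := (c1 ⟨v, h⟩).2
          omega
        · rw [dif_neg h] at hv
          exact ⟨h, Fin.natAdd_injective _ _ hv⟩
      refine Ah_mono (hQ j) ⟨fun x => ⟨⟨x.1, (key x.1 x.2).1⟩, (key x.1 x.2).2⟩, ?_⟩ ?_ (h2 j)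
      · intro a b hab
        exact hab
      · intro a b hab
        have := congrArg (fun z => z.1.1) hab
        exact Subtype.ext this

lemma MPr_one {Q : Cls} (hQ : Hered Q) {V : Type} (G : SimpleGraph V) :
    MPr (fun _ : Fin 1 => Q) G ↔ Ah Q G := by
  constructor
  · rintro ⟨c, hc⟩
    refine Ah_mono hQ (G := G.induce {v | c v = 0}) ⟨fun x => ⟨x, Subsingleton.elim _ _⟩, ?_⟩ ?_
      (hc 0)
    · intro a b hab; exact hab
    · intro a b hab
      exact congrArg Subtype.val hab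
  · intro h
    refine ⟨fun _ => 0, fun i => ?_⟩
    exact Ah_mono hQ (G := G) ⟨fun x => x.1, fun hab => hab⟩ Subtype.val_injective h

/-- a graph with one more isolated vertex -/
lemma Pr_succ {A B : Cls} (hA : Hered A) (hB1 : B 1 ⊥) (r : ℕ) (K : SimpleGraph (Fin r))
    (hK : A r K) : ∃ G : SimpleGraph (Fin (r + 1)), ∃ S : Set (Fin (r + 1)),
      Ah A (G.induce S) ∧ Ah B (G.induce Sᶜ) := by
  refine ⟨K.map Fin.castSuccEmb, {v | v ≠ Fin.last r}, ?_, ?_⟩
  · refine Ah_mono hA (G := K) ⟨fun x => x.1.castPred x.2, ?_⟩ ?_ ⟨r, K, hK, ⟨SimpleGraph.Iso.refl⟩⟩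
    · intro a b hab
      have h1 : (K.map Fin.castSuccEmb).Adj a.1 b.1 := hab
      rw [SimpleGraph.map_adj] at h1
      obtain ⟨u, v, huv, hu, hv⟩ := h1
      have e1 : a.1.castPred a.2 = u := by
        apply Fin.castSucc_injective
        rw [Fin.castSucc_castPred]; exact hu.symm
      have e2 : b.1.castPred b.2 = v := by
        apply Fin.castSucc_injective
        rw [Fin.castSucc_castPred]; exact hv.symm
      rw [e1, e2]
      exact huv
    · intro a b hab
      have h1 : a.1.castPred a.2 = b.1.castPred b.2 := hab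
      have := congrArg Fin.castSucc h1
      rw [Fin.castSucc_castPred, Fin.castSucc_castPred] at this
      exact Subtype.ext this
  · refine ⟨1, ⊥, hB1, ⟨?_⟩⟩
    have hsub : ∀ x : (({v | v ≠ Fin.last r} : Set (Fin (r + 1)))ᶜ : Set (Fin (r+1))), x.1 = Fin.last r := by
      intro x
      have := x.2
      simpa using this
    refine ⟨⟨fun _ => 0, fun _ => ⟨Fin.last r, by simp⟩, ?_, ?_⟩, ?_⟩
    · intro x
      exact Subtype.ext (hsub x).symm
    · intro x
      exact Subsingleton.elim _ _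
    · intro a b
      have : a = b := Subtype.ext ((hsub a).trans (hsub b).symm)
      subst this
      simp

lemma Pr_comm_succ {A B : Cls} (hB : Hered B) (hA1 : A 1 ⊥) (r : ℕ) (K : SimpleGraph (Fin r))
    (hK : B r K) : ∃ G : SimpleGraph (Fin (r + 1)), ∃ S : Set (Fin (r + 1)),
      Ah A (G.induce S) ∧ Ah B (G.induce Sᶜ) := by
  obtain ⟨G, S, h1, h2⟩ := Pr_succ hB hA1 r K hK
  refine ⟨G, Sᶜ, h2, ?_⟩
  rw [compl_compl]
  exact h1

/-- bounded hereditary classes factor into irreducibles -/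
lemma exists_fact (N : ℕ) : ∀ Q : Cls, Hered Q → Q 1 ⊥ →
    (∀ (n : ℕ) (G : SimpleGraph (Fin n)), Q n G → n ≤ N) →
    ∃ (m : ℕ) (Ps : Fin m → Cls), (∀ i, Irr (Ps i)) ∧
      ∀ (n : ℕ) (G : SimpleGraph (Fin n)), (Q n G ↔ MPr Ps G) := by
  induction N with
  | zero =>
    intro Q _ h1 hb
    exact absurd (hb 1 ⊥ h1) (by omega)
  | succ N ih =>
    intro Q hQ hQ1 hb
    by_cases hirr : Irr Q
    · refine ⟨1, fun _ => Q, fun _ => hirr, fun n G => ?_⟩
      rw [MPr_one hQ, Ah_fin hQ]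
    · have : ∃ A B : Cls, Hered A ∧ Hered B ∧ A 1 ⊥ ∧ B 1 ⊥ ∧
          ∀ (n : ℕ) (G : SimpleGraph (Fin n)), (Q n G ↔ Pr A B n G) := by
        by_contra hcon
        apply hirr
        refine ⟨hQ, hQ1, fun A B hA hB hA1 hB1 h => hcon ⟨A, B, hA, hB, hA1, hB1, h⟩⟩
      obtain ⟨A, B, hA, hB, hA1, hB1, hAB⟩ := this
      have hbA : ∀ (n : ℕ) (G : SimpleGraph (Fin n)), A n G → n ≤ N := by
        intro n G hG
        obtain ⟨G', S, h1, h2⟩ := Pr_succ hA hB1 n G hG
        have := hb (n + 1) G' ((hAB _ _).2 ⟨S, h1, h2⟩)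
        omega
      have hbB : ∀ (n : ℕ) (G : SimpleGraph (Fin n)), B n G → n ≤ N := by
        intro n G hG
        obtain ⟨G', S, h1, h2⟩ := Pr_comm_succ hB hA1 n G hG
        have := hb (n + 1) G' ((hAB _ _).2 ⟨S, h1, h2⟩)
        omega
      obtain ⟨m1, P1, hP1, hP1'⟩ := ih A hA hA1 hbA
      obtain ⟨m2, P2, hP2, hP2'⟩ := ih B hB hB1 hbB
      refine ⟨m1 + m2, Fin.append P1 P2, ?_, fun n G => ?_⟩
      · intro i
        refine Fin.addCases (fun i => ?_) (fun j => ?_) i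
        · rw [Fin.append_left]; exact hP1 i
        · rw [Fin.append_right]; exact hP2 j
      · rw [hAB, MPr_append (fun i => (hP1 i).1) (fun i => (hP2 i).1)]
        unfold Pr
        refine exists_congr fun S => ?_
        rw [Ah_iff_MPr (fun i => (hP1 i).1) hP1', Ah_iff_MPr (fun i => (hP2 i).1) hP2']


/-- order at most two, or edgeless of order at most three -/
def PC : Cls := fun n G => n ≤ 2 ∨ (n ≤ 3 ∧ G = ⊥)

/-- order at most four, or a subgraph of `K_{3,3}` -/
def RC : Cls := fun n G => n ≤ 4 ∨ ∃ S : Set (Fin n), S.ncard ≤ 3 ∧ Sᶜ.ncard ≤ 3 ∧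
  (∀ u ∈ S, ∀ v ∈ S, ¬ G.Adj u v) ∧ (∀ u ∈ Sᶜ, ∀ v ∈ Sᶜ, ¬ G.Adj u v)

lemma PC_hered : Hered PC := by
  intro a b G H f hf h
  have hc : b ≤ a := by
    have := Fintype.card_le_of_injective f hf
    simpa using this
  rcases h with h | ⟨h1, h2⟩
  · exact Or.inl (by omega)
  · right
    refine ⟨by omega, ?_⟩
    subst h2
    ext u v
    simp only [SimpleGraph.bot_adj, iff_false]
    intro huv
    exact (SimpleGraph.bot_adj _ _).1 (f.map_rel huv)

lemma RC_hered : Hered RC := by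
  intro a b G H f hf h
  have hc : b ≤ a := by
    have := Fintype.card_le_of_injective f hf
    simpa using this
  rcases h with h | ⟨S, h1, h2, h3, h4⟩
  · exact Or.inl (by omega)
  · right
    refine ⟨f ⁻¹' S, ?_, ?_, ?_, ?_⟩
    · refine le_trans ?_ h1
      exact Set.ncard_le_ncard_of_injOn f (fun x hx => hx) (fun x _ y _ h => hf h) (Set.toFinite _)
    · refine le_trans ?_ h2
      exact Set.ncard_le_ncard_of_injOn f (fun x hx => hx) (fun x _ y _ h => hf h) (Set.toFinite _)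
    · intro u hu v hv huv
      exact h3 _ hu _ hv (f.map_rel huv)
    · intro u hu v hv huv
      exact h4 _ hu _ hv (f.map_rel huv)

lemma Ah_PC {V : Type} [Finite V] (G : SimpleGraph V) :
    Ah PC G ↔ (Nat.card V ≤ 2 ∨ (Nat.card V ≤ 3 ∧ G = ⊥)) := by
  constructor
  · rintro ⟨r, K, hK, ⟨e⟩⟩
    have hc : Nat.card V = r := by
      rw [Nat.card_congr e.toEquiv, Nat.card_eq_fintype_card, Fintype.card_fin]
    rw [hc]
    rcases hK with h | ⟨h1, h2⟩
    · exact Or.inl h
    · right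
      refine ⟨h1, ?_⟩
      subst h2
      ext u v
      rw [← e.map_rel_iff]
      simp
  · intro h
    obtain ⟨b, ⟨g⟩⟩ := Finite.exists_equiv_fin V
    have hc : Nat.card V = b := by
      rw [Nat.card_congr g, Nat.card_eq_fintype_card, Fintype.card_fin]
    rw [hc] at h
    refine ⟨b, G.comap g.symm, ?_, ⟨⟨g, by intro a b; simp [SimpleGraph.comap_adj]⟩⟩⟩
    rcases h with h | ⟨h1, h2⟩
    · exact Or.inl h
    · right
      refine ⟨h1, ?_⟩
      subst h2
      ext u v
      simp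

lemma Ah_PC_induce {V : Type} [Finite V] (G : SimpleGraph V) (S : Set V) :
    Ah PC (G.induce S) ↔ (S.ncard ≤ 2 ∨ (S.ncard ≤ 3 ∧ ∀ u ∈ S, ∀ v ∈ S, ¬ G.Adj u v)) := by
  rw [Ah_PC]
  have h1 : Nat.card S = S.ncard := rfl
  rw [h1]
  refine or_congr Iff.rfl (and_congr Iff.rfl ?_)
  constructor
  · intro h u hu v hv huv
    have : (G.induce S).Adj ⟨u, hu⟩ ⟨v, hv⟩ := huv
    rw [h] at this
    exact this
  · intro h
    ext u v
    simp only [SimpleGraph.comap_adj, Function.Embedding.subtype_apply, SimpleGraph.bot_adj,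
      iff_false]
    exact h u.1 u.2 v.1 v.2

lemma PC_irr : Irr PC := by
  refine ⟨PC_hered, Or.inl (by norm_num), ?_⟩
  -- it suffices to find an edgeless graph on two vertices in one of the factors
  have key : ∀ A B : Cls, Hered A → Hered B → A 2 ⊥ → B 1 ⊥ →
      (∀ (n : ℕ) (G : SimpleGraph (Fin n)), (PC n G ↔ Pr A B n G)) → False := by
    intro A B hA hB hA2 hB1 h
    let G : SimpleGraph (Fin 3) := SimpleGraph.fromRel (fun u v => u ≠ 2 ∧ v = 2)
    have hG : ∀ u v : Fin 3, u ≠ 2 → v ≠ 2 → ¬ G.Adj u v := by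
      intro u v hu hv huv
      rw [SimpleGraph.fromRel_adj] at huv
      rcases huv.2 with h | h
      · exact hv h.2
      · exact hu h.2
    have h1 : Pr A B 3 G := by
      refine ⟨{v | v ≠ 2}, ?_, ?_⟩
      · refine Ah_mono hA (G := (⊥ : SimpleGraph (Fin 2))) ⟨fun x => x.1.castPred x.2, ?_⟩ ?_
          ⟨2, ⊥, hA2, ⟨SimpleGraph.Iso.refl⟩⟩
        · intro a b hab
          exact absurd hab (hG a.1 b.1 a.2 b.2)
        · intro a b hab
          have h1 : a.1.castPred a.2 = b.1.castPred b.2 := hab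
          have := congrArg Fin.castSucc h1
          rw [Fin.castSucc_castPred, Fin.castSucc_castPred] at this
          exact Subtype.ext this
      · have hsub : ∀ x : (({v | v ≠ 2} : Set (Fin 3))ᶜ : Set (Fin 3)), x.1 = 2 := by
          intro x
          have := x.2
          simpa using this
        refine Ah_mono hB (G := (⊥ : SimpleGraph (Fin 1))) ⟨fun x => 0, ?_⟩ ?_
          ⟨1, ⊥, hB1, ⟨SimpleGraph.Iso.refl⟩⟩
        · intro a b hab
          have : a = b := Subtype.ext ((hsub a).trans (hsub b).symm)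
          subst this
          exact absurd hab (SimpleGraph.irrefl _)
        · intro a b _
          exact Subtype.ext ((hsub a).trans (hsub b).symm)
    have h2 := (h 3 G).2 h1
    rcases h2 with h2 | ⟨-, h2⟩
    · omega
    · have h3 : G.Adj 0 2 := by
        rw [SimpleGraph.fromRel_adj]
        exact ⟨by decide, Or.inl ⟨by decide, rfl⟩⟩
      rw [h2] at h3
      exact h3
  have key2 : ∀ (A : Cls), Hered A → ∀ S : Set (Fin 3), 2 ≤ S.ncard →
      Ah A ((⊥ : SimpleGraph (Fin 3)).induce S) → A 2 ⊥ := by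
    intro A hA S hS h
    rw [← Ah_fin hA]
    obtain ⟨x, hx, y, hy, hxy⟩ := (Set.one_lt_ncard (Set.toFinite S)).1 (by omega : 1 < S.ncard)
    refine Ah_mono hA ⟨fun i : Fin 2 => if i = 0 then ⟨x, hx⟩ else ⟨y, hy⟩, ?_⟩ ?_ h
    · intro a b hab
      exact absurd hab (SimpleGraph.bot_adj _ _).1
    · intro a b hab
      have hab' : (if a = 0 then (⟨x, hx⟩ : S) else ⟨y, hy⟩) =
        (if b = 0 then (⟨x, hx⟩ : S) else ⟨y, hy⟩) := hab
      fin_cases a <;> fin_cases b
      · rfl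
      · exact absurd (congrArg Subtype.val hab') hxy
      · exact absurd (congrArg Subtype.val hab').symm hxy
      · rfl
  intro A B hA hB hA1 hB1 h
  have h3 : Pr A B 3 ⊥ := (h 3 ⊥).1 (Or.inr ⟨le_refl 3, rfl⟩)
  obtain ⟨S, hS1, hS2⟩ := h3
  have hcard : S.ncard + Sᶜ.ncard = 3 := by
    rw [Set.ncard_add_ncard_compl, Nat.card_eq_fintype_card, Fintype.card_fin]
  by_cases hS : 2 ≤ S.ncard
  · exact key A B hA hB (key2 A hA S hS hS1) hB1 h
  · refine key B A hB hA (key2 B hB Sᶜ (by omega) hS2) hA1 ?_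
    intro n G
    rw [h]
    constructor
    · rintro ⟨S, h1, h2⟩
      exact ⟨Sᶜ, h2, by rwa [compl_compl]⟩
    · rintro ⟨S, h1, h2⟩
      exact ⟨Sᶜ, h2, by rwa [compl_compl]⟩

end Pool.Agent.H29R3.UniqFact
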